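import Pool.Agent.Y678.AU.All

/-!
# Fixed points of automorphisms of `P(Λ)/Fin`
-/

set_option autoImplicit false
set_option linter.unusedSectionVars false
set_option linter.unusedVariables false
set_option linter.style.haveILetI false

universe u

namespace Pool.Agent.Y678.FX

open Set
open Cardinal hiding univ
open Pool.Agent.Y678.AU
open Pool.Agent.W869.AV hiding few_meet card_of_trace few_down exists_many card_G card_F card_union card_al exists_split few_up few_exact few_members tr_univ tr_of_card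

variable {Λ : Type u}

instance : Fact (ℵ₀ ≤ ℵ₀) := ⟨le_rfl⟩

theorem sm_iff {A : Set Λ} : Sm ℵ₀ A ↔ A.Finite := Cardinal.lt_aleph0_iff_set_finite

theorem iter_inj {e : Λ → Λ} {R : Set Λ} (hinj : InjOn e R) (n : ℕ) :
    ∀ x x' : Λ, (∀ m < n, e^[m] x ∈ R) → (∀ m < n, e^[m] x' ∈ R) → e^[n] x = e^[n] x' →
      x = x' := by
  induction n with
  | zero => intro x x' _ _ h; exact h
  | succ n ih =>
    intro x x' hx hx' h
    rw [Function.iterate_succ_apply', Function.iterate_succ_apply'] at h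
    exact ih x x' (fun m hm => hx m (hm.trans n.lt_succ_self))
      (fun m hm => hx' m (hm.trans n.lt_succ_self)) (hinj (hx n n.lt_succ_self)
        (hx' n n.lt_succ_self) h)

theorem countable_leave {e : Λ → Λ} {R : Set Λ} (hinj : InjOn e R)
    (hW : (e '' R \ R).Countable) : {x ∈ R | ∃ n, e^[n] x ∉ R}.Countable := by
  classical
  refine Set.Countable.mono (s₂ := ⋃ n : ℕ, ⋃ y ∈ e '' R \ R,
    {x | e^[n] x = y ∧ ∀ m < n, e^[m] x ∈ R}) ?_ ?_
  · rintro x ⟨hxR, hx⟩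
    have h1 : e^[Nat.find hx] x ∉ R := Nat.find_spec hx
    have h2 : ∀ m < Nat.find hx, e^[m] x ∈ R := fun m hm => not_not.1 (Nat.find_min hx hm)
    obtain ⟨n, hn⟩ : ∃ n, Nat.find hx = n + 1 := by
      cases h3 : Nat.find hx with
      | zero =>
        rw [h3] at h1
        exact (h1 hxR).elim
      | succ n => exact ⟨n, rfl⟩
    refine mem_iUnion.2 ⟨Nat.find hx, mem_iUnion₂.2 ⟨e^[Nat.find hx] x, ⟨?_, h1⟩, rfl, h2⟩⟩
    rw [hn, Function.iterate_succ_apply']
    exact ⟨_, h2 n (by omega), rfl⟩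
  · refine countable_iUnion fun n => hW.biUnion fun y _ => Set.Subsingleton.countable ?_
    rintro x ⟨hx, hx'⟩ x' ⟨hy, hy'⟩
    exact iter_inj hinj n x x' hx' hy' (hx.trans hy.symm)

theorem exists_inv {e : Λ → Λ} {R : Set Λ} (hinj : InjOn e R) (hR : ¬ R.Countable)
    (hW : (e '' R \ R).Countable) :
    ∃ A ⊆ R, A.Infinite ∧ A.Countable ∧ e '' A ⊆ A ∧ (A \ e '' A).Finite := by
  classical
  let P : Set Λ := {x | ∀ n, e^[n] x ∈ R}
  have hPR : P ⊆ R := fun x hx => hx 0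
  have hP : ¬ P.Countable := by
    intro h
    refine hR ((h.union (countable_leave hinj hW)).mono ?_)
    intro x hx
    by_cases h1 : ∃ n, e^[n] x ∉ R
    · exact Or.inr ⟨hx, h1⟩
    · exact Or.inl fun n => not_not.1 fun h2 => h1 ⟨n, h2⟩
  have hPinf : P.Infinite := fun h => hP h.countable
  have heP : ∀ x ∈ P, ∀ n, e^[n] x ∈ P := by
    intro x hx n m
    rw [← Function.iterate_add_apply]
    exact hx _
  by_cases hc : ∃ x ∈ P, Function.Injective fun n : ℕ => e^[n] x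
  · obtain ⟨x, hx, hxi⟩ := hc
    refine ⟨range fun n : ℕ => e^[n] x, ?_, infinite_range_of_injective hxi, countable_range _,
      ?_, (finite_singleton x).subset ?_⟩
    · rintro _ ⟨n, rfl⟩
      exact hx n
    · rintro _ ⟨_, ⟨n, rfl⟩, rfl⟩
      exact ⟨n + 1, Function.iterate_succ_apply' e n x⟩
    · rintro _ ⟨⟨n, rfl⟩, hn⟩
      cases n with
      | zero => rfl
      | succ n => exact (hn ⟨e^[n] x, ⟨n, rfl⟩, (Function.iterate_succ_apply' e n x).symm⟩).elim
  · push Not at hc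
    have hper : ∀ x ∈ P, ∃ d : ℕ, e^[d + 1] x = x := by
      intro x hx
      have h1 := hc x hx
      rw [Function.Injective] at h1
      push Not at h1
      obtain ⟨i, j, hij, hne⟩ := h1
      have key : ∀ i d : ℕ, e^[i] x = e^[i + (d + 1)] x → e^[d + 1] x = x := by
        intro i d h2
        rw [Function.iterate_add_apply] at h2
        exact (iter_inj hinj i x (e^[d + 1] x) (fun m _ => hx m)
          (fun m _ => heP x hx (d + 1) m) h2).symm
      rcases lt_or_gt_of_ne hne with h2 | h2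
      · obtain ⟨d, rfl⟩ : ∃ d, j = i + (d + 1) := ⟨j - i - 1, by omega⟩
        exact ⟨d, key i d hij⟩
      · obtain ⟨d, rfl⟩ : ∃ d, i = j + (d + 1) := ⟨i - j - 1, by omega⟩
        exact ⟨d, key j d hij.symm⟩
    let f := hPinf.natEmbedding
    refine ⟨range fun p : ℕ × ℕ => e^[p.2] (f p.1), ?_, ?_, countable_range _, ?_, ?_⟩
    · rintro _ ⟨p, rfl⟩
      exact (f p.1).2 p.2
    · refine (infinite_range_of_injective (f := fun n : ℕ => ((f n : P) : Λ)) ?_).mono ?_
      · intro n m h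
        exact f.injective (Subtype.ext h)
      · rintro _ ⟨n, rfl⟩
        exact ⟨(n, 0), rfl⟩
    · rintro _ ⟨_, ⟨p, rfl⟩, rfl⟩
      exact ⟨(p.1, p.2 + 1), Function.iterate_succ_apply' e p.2 _⟩
    · convert finite_empty (α := Λ)
      rw [sdiff_eq_empty]
      rintro _ ⟨p, rfl⟩
      obtain ⟨d, hd⟩ := hper (f p.1) (f p.1).2
      refine ⟨e^[p.2 + d] (f p.1), ⟨(p.1, p.2 + d), rfl⟩, ?_⟩
      rw [← Function.iterate_succ_apply' e]
      show e^[(p.2 + d) + 1] (f p.1 : Λ) = e^[p.2] (f p.1)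
      rw [add_assoc, Function.iterate_add_apply, hd]

/-- Main lemma. -/
theorem fixed_of_good {π : Aut ℵ₀ Λ} {e : Λ → Λ} {C : Set Λ} (he : Good π e C)
    (hC : ¬ C.Countable) (hB : (π.F C \ C).Countable) :
    ∃ A ⊆ C, A.Infinite ∧ A.Countable ∧ Al ℵ₀ (π.F A) A ∧ Al ℵ₀ A (π.F A) := by
  obtain ⟨R, hRC, hinj, hsm⟩ := exists_inj le_rfl he
  have hfin : (C \ R).Finite := sm_iff.1 hsm
  have hR : ¬ R.Countable := fun h => hC ((h.union hfin.countable).mono fun x hx => by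
    by_cases h1 : x ∈ R
    · exact Or.inl h1
    · exact Or.inr ⟨hx, h1⟩)
  have hW : (e '' R \ R).Countable := by
    have h1 : (e '' C \ π.F C).Finite := sm_iff.1 (he C subset_rfl).2
    refine ((h1.countable.union hB).union hfin.countable).mono ?_
    rintro y ⟨⟨x, hx, rfl⟩, hy⟩
    by_cases h2 : e x ∈ π.F C
    · by_cases h3 : e x ∈ C
      · exact Or.inr ⟨h3, hy⟩
      · exact Or.inl (Or.inr ⟨h2, h3⟩)
    · exact Or.inl (Or.inl ⟨⟨x, hRC hx, rfl⟩, h2⟩)
  obtain ⟨A, hAR, hA1, hA2, hA3, hA4⟩ := exists_inv hinj hR hW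
  have h5 := he A (hAR.trans hRC)
  refine ⟨A, hAR.trans hRC, hA1, hA2, h5.1.mono subset_rfl hA3, ?_⟩
  refine sm_mono (t := A \ e '' A ∪ e '' A \ π.F A) ?_ (sm_union le_rfl (sm_iff.2 hA4) h5.2)
  rintro x ⟨hx, hx'⟩
  by_cases h6 : x ∈ e '' A
  · exact Or.inr ⟨h6, hx'⟩
  · exact Or.inl ⟨hx, h6⟩

/-- The same with the inverse. -/
theorem fixed_of_good' {π : Aut ℵ₀ Λ} {e : Λ → Λ} {C : Set Λ} (he : Good π e C)
    (hC : ¬ C.Countable) (hB : (C \ π.F C).Countable) :
    ∃ A : Set Λ, A.Infinite ∧ A.Countable ∧ Al ℵ₀ (π.F A) A ∧ Al ℵ₀ A (π.F A) := by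
  classical
  obtain ⟨R, hRC, hinj, hsm⟩ := exists_inj le_rfl he
  have hfin : (C \ R).Finite := sm_iff.1 hsm
  have hR : ¬ R.Countable := fun h => hC ((h.union hfin.countable).mono fun x hx => by
    by_cases h1 : x ∈ R
    · exact Or.inl h1
    · exact Or.inr ⟨hx, h1⟩)
  obtain ⟨s', hs'⟩ : ∃ s' : Λ → Λ, ∀ x ∈ R, s' (e x) = x := by
    refine ⟨fun y => if hy : ∃ x ∈ R, e x = y then hy.choose else y, fun x hx => ?_⟩
    have h3 : ∃ x' ∈ R, e x' = e x := ⟨x, hx, rfl⟩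
    show (if hy : ∃ x' ∈ R, e x' = e x then hy.choose else e x) = x
    rw [dif_pos h3]
    exact hinj h3.choose_spec.1 hx h3.choose_spec.2
  have h3 := (he.mono hRC).symm le_rfl hs'
  have hfinF : (e '' C \ e '' R).Finite := (hfin.image e).subset (by
    rintro _ ⟨⟨x, hx, rfl⟩, hx'⟩
    exact ⟨x, ⟨hx, fun h => hx' ⟨x, h, rfl⟩⟩, rfl⟩)
  have h4 : (π.F C \ e '' C).Finite := sm_iff.1 (he C subset_rfl).1
  have hCe : (C \ e '' R).Countable := by
    refine ((hB.union h4.countable).union hfinF.countable).mono ?_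
    rintro x ⟨hx, hx'⟩
    by_cases h5 : x ∈ π.F C
    · by_cases h6 : x ∈ e '' C
      · exact Or.inr ⟨h6, hx'⟩
      · exact Or.inl (Or.inr ⟨h5, h6⟩)
    · exact Or.inl (Or.inl ⟨hx, h5⟩)
  have h5 : ¬ (e '' R).Countable := fun h => hR ((Set.countable_of_injective_of_countable_image
    hinj h))
  obtain ⟨A, -, hA1, hA2, hA3, hA4⟩ := fixed_of_good h3 h5 (by
    have h6 : ((π.symm le_rfl).F (e '' R) \ s' '' (e '' R)).Finite :=
      sm_iff.1 (h3 _ subset_rfl).1
    have h7 : s' '' (e '' R) = R := by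
      ext x
      constructor
      · rintro ⟨_, ⟨y, hy, rfl⟩, rfl⟩
        rw [hs' y hy]
        exact hy
      · intro hx
        exact ⟨e x, ⟨x, hx, rfl⟩, hs' x hx⟩
    rw [h7] at h6
    refine (h6.countable.union hCe).mono ?_
    rintro x ⟨hx, hx'⟩
    by_cases h8 : x ∈ R
    · exact Or.inr ⟨hRC h8, hx'⟩
    · exact Or.inl ⟨hx, h8⟩)
  have hA3' : Al ℵ₀ (π.G A) A := hA3
  have hA4' : Al ℵ₀ A (π.G A) := hA4
  refine ⟨A, hA1, hA2, ?_, ?_⟩
  · exact ((π.le_iff _ _).1 hA4').trans le_rfl (π.FG A)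
  · exact (π.FG' A).trans le_rfl ((π.le_iff _ _).1 hA3')

end Pool.Agent.Y678.FX
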