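import Pool.Agent.Y678.FX.Main
import Pool.Agent.Y678.AI.Triv

/-!
# Restrictions of automorphisms of `P(Λ)/I_κ`
-/

set_option autoImplicit false
set_option linter.unusedSectionVars false
set_option linter.unusedVariables false
set_option linter.style.haveILetI false

universe u

namespace Pool.Agent.Y678.FX

open Set
open Cardinal hiding univ
open Pool.Agent.Y678.AU
open Pool.Agent.W869.AV hiding few_meet card_of_trace few_down exists_many card_G card_F card_union card_al exists_split few_up few_exact few_members tr_univ tr_of_card exists_nontrivial card_G_local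

variable {κ : Cardinal.{u}} {hκ : ℵ₀ ≤ κ} {Λ : Type u}

theorem sm_val {E : Set Λ} (X : Set E) : Sm κ (Subtype.val '' X : Set Λ) ↔ Sm κ X := by
  rw [Sm, Sm, Cardinal.mk_image_eq Subtype.val_injective]

theorem al_val {E : Set Λ} (X Y : Set E) :
    Al κ (Subtype.val '' X : Set Λ) (Subtype.val '' Y) ↔ Al κ X Y := by
  rw [Al, Al, ← sm_val (X \ Y), Set.image_sdiff Subtype.val_injective]

theorem cls_val {E : Set Λ} (X Y : Set E) :
    cls hκ (Subtype.val '' X : Set Λ) = cls hκ (Subtype.val '' Y) ↔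
      cls hκ X = cls hκ Y := by
  rw [cls_eq_iff, cls_eq_iff, al_val, al_val]

variable [Fact (ℵ₀ ≤ κ)]

theorem exists_below {F Z : Set Λ} (h : cls hκ Z ≤ cls hκ F) :
    ∃ Y : Set F, cls hκ (Subtype.val '' Y : Set Λ) = cls hκ Z := by
  refine ⟨Subtype.val ⁻¹' Z, ?_⟩
  rw [cls_eq_iff, Subtype.image_preimage_coe]
  refine ⟨Al.of_subset inter_subset_right, ?_⟩
  have h1 : Al κ Z F := cls_le_iff.1 h
  refine sm_mono ?_ h1
  rintro x ⟨hx, hx'⟩
  exact ⟨hx, fun h2 => hx' ⟨h2, hx⟩⟩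

theorem exists_restrict (φ : Quo κ hκ Λ ≃o Quo κ hκ Λ) {E F : Set Λ}
    (hEF : φ (cls hκ E) = cls hκ F) :
    ∃ ψ : Quo κ hκ E ≃o Quo κ hκ F, ∀ (X : Set E) (Y : Set F),
      ψ (cls hκ X) = cls hκ Y ↔
        φ (cls hκ (Subtype.val '' X)) = cls hκ (Subtype.val '' Y) := by
  have hle : ∀ {E' : Set Λ} (X : Set E'), cls hκ (Subtype.val '' X : Set Λ) ≤ cls hκ E' := by
    intro E' X
    rw [cls_le_iff]
    refine Al.of_subset ?_
    rintro _ ⟨x, -, rfl⟩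
    exact x.2
  have hex : ∀ X : Set E, ∃ Y : Set F,
      cls hκ (Subtype.val '' Y : Set Λ) = φ (cls hκ (Subtype.val '' X)) := by
    intro X
    obtain ⟨Z, hZ⟩ := exists_cls (φ (cls hκ (Subtype.val '' X : Set Λ)))
    have h1 : cls hκ Z ≤ cls hκ F := by
      rw [hZ, ← hEF, φ.le_iff_le]
      exact hle X
    obtain ⟨Y, hY⟩ := exists_below h1
    exact ⟨Y, hY.trans hZ⟩
  choose T hT using hex
  choose rep hrep using fun q : Quo κ hκ E => exists_cls q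
  let f : Quo κ hκ E → Quo κ hκ F := fun q => cls hκ (T (rep q))
  have hle' : ∀ {E' : Set Λ} (X Y : Set E'), cls hκ X ≤ cls hκ Y ↔
      cls hκ (Subtype.val '' X : Set Λ) ≤ cls hκ (Subtype.val '' Y) := by
    intro E' X Y
    rw [cls_le_iff, cls_le_iff, al_val]
  have hf : ∀ a b, f a ≤ f b ↔ a ≤ b := by
    intro a b
    show cls hκ (T (rep a)) ≤ cls hκ (T (rep b)) ↔ _
    rw [hle', hT, hT, φ.le_iff_le, ← hle', hrep, hrep]
  have hsurj : Function.Surjective f := by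
    intro r
    obtain ⟨Y, rfl⟩ := exists_cls r
    obtain ⟨Z, hZ⟩ := exists_cls (φ.symm (cls hκ (Subtype.val '' Y : Set Λ)))
    have h1 : cls hκ Z ≤ cls hκ E := by
      rw [hZ, OrderIso.symm_apply_le, hEF]
      exact hle Y
    obtain ⟨X, hX⟩ := exists_below h1
    refine ⟨cls hκ X, ?_⟩
    show cls hκ (T (rep (cls hκ X))) = cls hκ Y
    rw [← cls_val, hT]
    have h2 : cls hκ (Subtype.val '' rep (cls hκ X) : Set Λ) = cls hκ (Subtype.val '' X) := by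
      rw [cls_val, hrep]
    rw [h2, hX, hZ, φ.apply_symm_apply]
  let f' : Quo κ hκ E ↪o Quo κ hκ F := OrderEmbedding.ofMapLEIff f hf
  refine ⟨RelIso.ofSurjective f' hsurj, fun X Y => ?_⟩
  show cls hκ (T (rep (cls hκ X))) = cls hκ Y ↔ _
  rw [← cls_val, hT]
  have h2 : cls hκ (Subtype.val '' rep (cls hκ X) : Set Λ) = cls hκ (Subtype.val '' X) := by
    rw [cls_val, hrep]
  rw [h2]

theorem iso_of_trivialOn {φ : Quo κ hκ Λ ≃o Quo κ hκ Λ} {E F : Set Λ}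
    (hEF : φ (cls hκ E) = cls hκ F) {ψ : Quo κ hκ E ≃o Quo κ hκ F}
    (hψ : ∀ (X : Set E) (Y : Set F), ψ (cls hκ X) = cls hκ Y ↔
        φ (cls hκ (Subtype.val '' X)) = cls hκ (Subtype.val '' Y))
    {C : Set E} (h : IsTrivialOn φ (Subtype.val '' C)) : IsTrivialIso ψ C := by
  classical
  obtain ⟨ρ, hρ⟩ := exists_aut φ
  obtain ⟨e, he⟩ := tr_of_trivialOn hρ h
  obtain ⟨R, hRC, hinj, hR⟩ := exists_inj hκ he
  have hCF : Al κ (e '' (Subtype.val '' C)) F := by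
    have h1 : Al κ (ρ.F (Subtype.val '' C)) (ρ.F E) := by
      rw [← ρ.le_iff]
      refine Al.of_subset ?_
      rintro _ ⟨x, -, rfl⟩
      exact x.2
    rw [hρ, cls_eq_iff] at hEF
    exact ((he _ subset_rfl).2.trans hκ h1).trans hκ hEF.1
  let C' : Set E := {x | x ∈ C ∧ (x : Λ) ∈ R ∧ e x ∈ F}
  let D' : Set F := {y | ∃ x ∈ C', e (x : E) = y}
  have hR' : Sm κ (R \ {x | e x ∈ F} : Set Λ) := by
    refine he.small hκ (fun z hz => hRC hz.1) (sm_mono ?_ hCF)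
    rintro _ ⟨x, ⟨hx, hx'⟩, rfl⟩
    exact ⟨⟨x, hRC hx, rfl⟩, hx'⟩
  have hCC : Al κ C C' := by
    rw [← al_val]
    refine sm_mono ?_ (sm_union hκ hR hR')
    rintro _ ⟨⟨x, hx, rfl⟩, hx'⟩
    by_cases h1 : (x : Λ) ∈ R
    · exact Or.inr ⟨h1, fun h2 => hx' ⟨x, ⟨hx, h1, h2⟩, rfl⟩⟩
    · exact Or.inl ⟨⟨x, hx, rfl⟩, h1⟩
  have key : ∀ X : Set E, X ⊆ C → φ (cls hκ (Subtype.val '' X)) =
      cls hκ (e '' (Subtype.val '' X)) := by
    intro X hX
    rw [hρ, cls_eq_iff]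
    exact he _ (image_mono hX)
  have hm : ∀ x : C', ∃ y : D', e (x : E) = (y : F) := fun x =>
    ⟨⟨⟨e (x : E), x.2.2.2⟩, x, x.2, rfl⟩, rfl⟩
  choose m hm using hm
  have hmb : Function.Bijective m := by
    constructor
    · intro x x' hxx
      have h1 : e (x : E) = e (x' : E) := by rw [hm, hm, hxx]
      exact Subtype.ext (Subtype.ext (hinj x.2.2.1 x'.2.2.1 h1))
    · rintro ⟨y, x, hx, hxy⟩
      refine ⟨⟨x, hx⟩, Subtype.ext (Subtype.ext ?_)⟩
      rw [← hm]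
      exact hxy
  refine ⟨D', ?_, C', fun x hx => hx.1, hCC, D', subset_rfl, Al.refl _,
    (Equiv.ofBijective m hmb).symm, fun X => ?_⟩
  · rw [hψ]
    have h1 : cls hκ (Subtype.val '' C : Set Λ) = cls hκ (Subtype.val '' C') := by
      rw [cls_val, cls_eq_iff]
      exact ⟨hCC, Al.of_subset fun x hx => hx.1⟩
    rw [h1, key _ fun x hx => hx.1]
    congr 1
    ext y
    constructor
    · rintro ⟨_, ⟨x, hx, rfl⟩, rfl⟩
      exact ⟨⟨e x, hx.2.2⟩, ⟨x, hx, rfl⟩, rfl⟩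
    · rintro ⟨y, ⟨x, hx, hxy⟩, rfl⟩
      exact ⟨x, ⟨x, hx, rfl⟩, hxy⟩
  · rw [hψ, key _ (by rintro _ ⟨x, -, rfl⟩; exact x.2.1)]
    congr 1
    ext y
    constructor
    · rintro ⟨_, ⟨_, ⟨x, hx, rfl⟩, rfl⟩, rfl⟩
      refine ⟨_, ⟨m x, ?_, rfl⟩, (hm x).symm⟩
      show (Equiv.ofBijective m hmb).symm (m x) ∈ X
      have h6 : (Equiv.ofBijective m hmb).symm (m x) = x :=
        (Equiv.ofBijective m hmb).symm_apply_apply x
      rw [h6]
      exact hx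
    · rintro ⟨_, ⟨z, hz, rfl⟩, rfl⟩
      refine ⟨_, ⟨_, ⟨_, hz, rfl⟩, rfl⟩, ?_⟩
      rw [hm]
      have h6 : m ((Equiv.ofBijective m hmb).symm z) = z :=
        (Equiv.ofBijective m hmb).apply_symm_apply z
      rw [h6]

theorem tr_of_iso {φ : Quo κ hκ Λ ≃o Quo κ hκ Λ} {ρ : Aut κ Λ}
    (hρ : ∀ A, φ (cls hκ A) = cls hκ (ρ.F A)) {E F : Set Λ}
    {ψ : Quo κ hκ E ≃o Quo κ hκ F}
    (hψ : ∀ (X : Set E) (Y : Set F), ψ (cls hκ X) = cls hκ Y ↔
        φ (cls hκ (Subtype.val '' X)) = cls hκ (Subtype.val '' Y))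
    (h : IsTrivialIso ψ Set.univ) : Tr ρ E := by
  classical
  obtain ⟨D, hD, C', -, hC', D', -, hD', g, hg⟩ := h
  obtain ⟨e, he⟩ : ∃ e : Λ → Λ, ∀ c : C', e ((c : E) : Λ) = ((g.symm c : F) : Λ) := by
    refine ⟨fun x => if h : ∃ c : C', ((c : E) : Λ) = x then ((g.symm h.choose : F) : Λ) else x,
      fun c => ?_⟩
    have h1 : ∃ c' : C', ((c' : E) : Λ) = ((c : E) : Λ) := ⟨c, rfl⟩
    show (if h : ∃ c' : C', ((c' : E) : Λ) = ((c : E) : Λ) then ((g.symm h.choose : F) : Λ)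
      else ((c : E) : Λ)) = _
    rw [dif_pos h1]
    have h2 : h1.choose = c := Subtype.ext (Subtype.ext h1.choose_spec)
    rw [h2]
  have hgood : Good ρ e (Subtype.val '' C' : Set Λ) := by
    intro A hA
    have h1 : (Subtype.val '' (Subtype.val '' {c : C' | ((c : E) : Λ) ∈ A} : Set E) : Set Λ) =
        A := by
      ext x
      constructor
      · rintro ⟨_, ⟨c, hc, rfl⟩, rfl⟩
        exact hc
      · intro hx
        obtain ⟨c, hc, rfl⟩ := hA hx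
        exact ⟨c, ⟨⟨c, hc⟩, hx, rfl⟩, rfl⟩
    have h2 := hg {c : C' | ((c : E) : Λ) ∈ A}
    rw [hψ, h1, hρ] at h2
    have h3 : (Subtype.val '' (Subtype.val '' (g ⁻¹' {c : C' | ((c : E) : Λ) ∈ A}) : Set F) :
        Set Λ) = e '' A := by
      ext y
      constructor
      · rintro ⟨_, ⟨z, hz, rfl⟩, rfl⟩
        refine ⟨((g z : E) : Λ), hz, ?_⟩
        rw [he, g.symm_apply_apply]
      · rintro ⟨x, hx, rfl⟩
        obtain ⟨c, hc, rfl⟩ := hA hx
        refine ⟨(g.symm ⟨c, hc⟩ : F), ⟨g.symm ⟨c, hc⟩, ?_, rfl⟩, (he ⟨c, hc⟩).symm⟩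
        show ((g (g.symm ⟨c, hc⟩) : E) : Λ) ∈ A
        rw [g.apply_symm_apply]
        exact hx
    rw [h3, cls_eq_iff] at h2
    exact h2
  refine Tr.of_remove hκ (N := E \ Subtype.val '' C') ⟨e, hgood.mono ?_⟩
    ⟨id, good_of_small hκ ?_⟩
  · rintro x ⟨hx, hx'⟩
    by_contra h9
    exact hx' ⟨hx, h9⟩
  · have h4 : Al κ (Subtype.val '' (Set.univ : Set E) : Set Λ) (Subtype.val '' C') :=
      (al_val _ _).2 hC'
    rw [Set.image_univ, Subtype.range_coe] at h4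
    exact h4

/-- Relative form. -/
theorem tr_rel {φ : Quo κ hκ Λ ≃o Quo κ hκ Λ} {ρ : Aut κ Λ}
    (hρ : ∀ A, φ (cls hκ A) = cls hκ (ρ.F A)) {E : Set Λ}
    (h : ∀ C ⊆ E, #C = κ → IsTrivialOn φ C)
    (hE : ∀ c, κ < c → c ≤ #E → c.IsInaccessible → TreeProp c) : Tr ρ E := by
  obtain ⟨F, hF⟩ := exists_cls (φ (cls hκ E))
  obtain ⟨ψ, hψ⟩ := exists_restrict φ hF.symm
  refine tr_of_iso hρ hψ (Pool.Agent.Y678.AI.trivialIso_all ψ (fun C hC =>
    iso_of_trivialOn hF.symm hψ (h _ ?_ ?_)) Set.univ ?_)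
  · rintro _ ⟨x, -, rfl⟩
    exact x.2
  · rw [Cardinal.mk_image_eq Subtype.val_injective, hC]
  · rw [Cardinal.mk_univ]
    exact hE

end Pool.Agent.Y678.FX
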